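import Pool.Agent.MWNP.Stmts
import Pool.Agent.MWZ.Stmts

/-!
# Necessity in the LR world: from the two letter theorem (block MWNP, row PHF; block MWN, row NHF) to
the systems of the final theorem
-/

namespace Pool.Agent.MWZ.H65

open Pool.Agent.Helper14_MV Pool.Agent.Helper2_MV Pool.Agent.MVO Pool.Agent.MWL Pool.Agent.MWS
  Pool.Agent.MWF Pool.Agent.MWN Pool.Agent.MWNP Pool.Agent.MWZ

/-- the two letter part of the systems h2, h3, h4, h5 -/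
def Two (n : ℕ) (S : List ℕ → List ℕ → Prop) : Prop :=
  (R0 S ∧ L n S) ∨ (H1 S ∧ H2 S ∧ H3 S ∧ H4 S ∧ E1 S) ∨
    ((T1 S ∧ T2 S ∧ T3 S ∧ T4 S ∧ T5 S ∧ T6 S ∧ T7 S ∧ E2 S) ∧ ((J n S ∧ T8 S) ∨ K n S))

/-- the two letter part from the row PHF -/
theorem two_of_phf (h : PhfStmt) {n : ℕ} {β : FIC} (hb : HBP n β) (hi : Iso3 β) (hm : ModF β) :
    Two n (RR β) := by
  rcases h n β hb hi hm with h2 | h3 | h4 | h5
  · exact Or.inl ⟨h2.h, h2.j⟩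
  · exact Or.inr (Or.inl ⟨h3.a, h3.b, h3.c, h3.d, h3.e⟩)
  · exact Or.inr (Or.inr ⟨⟨h4.s.s1, h4.s.s2, h4.s.s3, h4.s.s4, h4.s.s5, h4.s.s6, h4.s.s7, h4.s.s8⟩,
      Or.inl ⟨h4.j, h4.c⟩⟩)
  · exact Or.inr (Or.inr ⟨⟨h5.s.s1, h5.s.s2, h5.s.s3, h5.s.s4, h5.s.s5, h5.s.s6, h5.s.s7, h5.s.s8⟩,
      Or.inr h5.j⟩)

/-- the two letter part for `n = 1` from the row NHF -/
theorem two_of_nhf (h : NhfStmt) {β : FIC} (hb : HB β) (hi : Iso3 β) (hm : ModF β) :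
    Two 1 (RR β) := by
  rcases h β hb hi hm with h2 | h3 | h4 | h5
  · exact Or.inl ⟨h2.h, h2.j⟩
  · exact Or.inr (Or.inl ⟨h3.a, h3.b, h3.c, h3.d, h3.e⟩)
  · exact Or.inr (Or.inr ⟨⟨h4.s.s1, h4.s.s2, h4.s.s3, h4.s.s4, h4.s.s5, h4.s.s6, h4.s.s7, h4.s.s8⟩,
      Or.inl ⟨h4.j, h4.c⟩⟩)
  · exact Or.inr (Or.inr ⟨⟨h5.s.s1, h5.s.s2, h5.s.s3, h5.s.s4, h5.s.s5, h5.s.s6, h5.s.s7, h5.s.s8⟩,
      Or.inr h5.j⟩)

/-- **GLUE**: the necessity of the systems in the LR world for arbitrary period -/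
theorem phf_sys (h : PhfStmt) : ∀ (n : ℕ) (β : FIC), HBP n β → Iso3 β → ModF β →
    BaseH n (RR β) → SysH n (RR β) :=
  fun _ _ hb hi hm hB => ⟨hB, hb.rr, two_of_phf h hb hi hm⟩

/-- **GLUE** for `n = 1` -/
theorem nhf_sys (h : NhfStmt) : ∀ β : FIC, HB β → Iso3 β → ModF β →
    BaseH 1 (RR β) → SysH 1 (RR β) :=
  fun _ hb hi hm hB => ⟨hB, hb.rr, two_of_nhf h hb hi hm⟩

/-- `SysH` is the base, `R` and the two letter part -/
theorem sysH_iff (n : ℕ) (S : List ℕ → List ℕ → Prop) :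
    SysH n S ↔ BaseH n S ∧ R n S ∧ Two n S := Iff.rfl

/-- for `n = 1` the two forms of the two letter base agree -/
theorem hb_of_hbp {β : FIC} (h : HBP 1 β) : HB β where
  ap := h.ap
  rr := h.rr
  hst := by
    intro k U V hU hV h1 h2 s0 s1 hs
    refine h.hst k U V hU hV h1 h2 ?_ ?_ hs
    · intro j hj
      rcases s0 j hj with h | ⟨h, h'⟩
      · exact Or.inl h
      · exact Or.inr ⟨h, h', Nat.modEq_one⟩
    · intro j hj
      rcases s1 j hj with h | ⟨h, h'⟩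
      · exact Or.inl h
      · exact Or.inr ⟨h, h', Nat.modEq_one⟩

/-- and back -/
theorem hbp_of_hb {β : FIC} (h : HB β) : HBP 1 β where
  pos := le_refl 1
  ap := h.ap
  rr := h.rr
  hst := by
    intro k U V hU hV h1 h2 s0 s1 hs
    refine h.hst k U V hU hV h1 h2 ?_ ?_ hs
    · intro j hj
      rcases s0 j hj with h | ⟨h, h', _⟩
      · exact Or.inl h
      · exact Or.inr ⟨h, h'⟩
    · intro j hj
      rcases s1 j hj with h | ⟨h, h', _⟩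
      · exact Or.inl h
      · exact Or.inr ⟨h, h'⟩

end Pool.Agent.MWZ.H65
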